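import Mathlib

/-!
# A finite `p`-group of exponent `p³` which is a product of two subgroups of exponent `p`
-/

set_option autoImplicit false

namespace Pool.Agent.H992.EX

/-- The iterated wreath product: `s ∈ ZMod p` permutes the places `x`, `f x` translates the plane at
the place `x` by `(f x, f (x + 1))`, and `m x` is a function on this plane. -/
@[ext] structure Wr (p : ℕ) where
  m : ZMod p → ZMod p → ZMod p → ZMod p
  f : ZMod p → ZMod p
  s : ZMod p

variable {p : ℕ}

instance : Mul (Wr p) := ⟨fun a b =>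
  ⟨fun x u v => a.m x u v + b.m (x - a.s) (u + a.f x) (v + a.f (x + 1)),
    fun x => a.f x + b.f (x - a.s), a.s + b.s⟩⟩
instance : One (Wr p) := ⟨⟨fun _ _ _ => 0, fun _ => 0, 0⟩⟩
instance : Inv (Wr p) := ⟨fun a =>
  ⟨fun x u v => - a.m (x + a.s) (u - a.f (x + a.s)) (v - a.f (x + 1 + a.s)),
    fun x => - a.f (x + a.s), -a.s⟩⟩

theorem mul_m (a b : Wr p) (x u v : ZMod p) : (a * b).m x u v =
    a.m x u v + b.m (x - a.s) (u + a.f x) (v + a.f (x + 1)) := rfl
theorem mul_f (a b : Wr p) (x : ZMod p) : (a * b).f x = a.f x + b.f (x - a.s) := rfl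
theorem mul_s (a b : Wr p) : (a * b).s = a.s + b.s := rfl
theorem one_m (x u v : ZMod p) : (1 : Wr p).m x u v = 0 := rfl
theorem one_f (x : ZMod p) : (1 : Wr p).f x = 0 := rfl
theorem one_s : (1 : Wr p).s = 0 := rfl
theorem inv_m (a : Wr p) (x u v : ZMod p) : (a⁻¹).m x u v =
    - a.m (x + a.s) (u - a.f (x + a.s)) (v - a.f (x + 1 + a.s)) := rfl
theorem inv_f (a : Wr p) (x : ZMod p) : (a⁻¹).f x = - a.f (x + a.s) := rfl
theorem inv_s (a : Wr p) : (a⁻¹).s = -a.s := rfl

theorem ext' {a b : Wr p} (h1 : ∀ x u v, a.m x u v = b.m x u v) (h2 : ∀ x, a.f x = b.f x)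
    (h3 : a.s = b.s) : a = b :=
  Wr.ext (funext fun x => funext fun u => funext fun v => h1 x u v) (funext h2) h3

instance : Group (Wr p) :=
  Group.ofLeftAxioms
    (fun a b c => by
      apply ext'
      · intro x u v
        simp only [mul_m, mul_f, mul_s]
        have h1 : x - (a.s + b.s) = x - a.s - b.s := by ring
        have h2 : x + 1 - a.s = x - a.s + 1 := by ring
        rw [h1, h2, add_assoc, add_assoc u, add_assoc v]
      · intro x
        simp only [mul_f, mul_s]
        have h1 : x - (a.s + b.s) = x - a.s - b.s := by ring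
        rw [h1, add_assoc]
      · simp only [mul_s]; ring)
    (fun a => by
      apply ext'
      · intro x u v
        simp only [mul_m, one_m, one_f, one_s, sub_zero, add_zero, zero_add]
      · intro x
        simp only [mul_f, one_f, one_s, sub_zero, zero_add]
      · simp only [mul_s, one_s, zero_add])
    (fun a => by
      apply ext'
      · intro x u v
        simp only [mul_m, inv_m, inv_f, inv_s, one_m, sub_neg_eq_add]
        rw [← sub_eq_add_neg, ← sub_eq_add_neg]
        ring
      · intro x
        simp only [mul_f, inv_f, inv_s, one_f, sub_neg_eq_add]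
        ring
      · simp only [mul_s, inv_s, one_s]; ring)

/-- the powers -/
theorem pow_s (a : Wr p) (n : ℕ) : (a ^ n).s = n * a.s := by
  induction n with
  | zero => simp [one_s]
  | succ n ih => rw [pow_succ, mul_s, ih]; push_cast; ring

theorem pow_f (a : Wr p) (n : ℕ) (x : ZMod p) :
    (a ^ n).f x = ∑ k ∈ Finset.range n, a.f (x - k * a.s) := by
  induction n with
  | zero => simp [one_f]
  | succ n ih => rw [pow_succ, mul_f, ih, pow_s, Finset.sum_range_succ]

theorem pow_m (a : Wr p) (n : ℕ) (x u v : ZMod p) : (a ^ n).m x u v =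
    ∑ k ∈ Finset.range n, a.m (x - k * a.s) (u + (a ^ k).f x) (v + (a ^ k).f (x + 1)) := by
  induction n with
  | zero => simp [one_m]
  | succ n ih => rw [pow_succ, mul_m, ih, pow_s, Finset.sum_range_succ]

/-- the conditions on `m` -/
def Good (m : ZMod p → ZMod p → ZMod p → ZMod p) [NeZero p] : Prop :=
  (∀ x v, ∑ t, m x t v = 0) ∧ ∀ x u, ∑ t, m x u t = 0

end Pool.Agent.H992.EX
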