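import Pool.Agent.H992.EX.Base

/-!
# The two subgroups of exponent `p`
-/

set_option autoImplicit false

namespace Pool.Agent.H992.EX

variable {p : ℕ} [hp : Fact p.Prime]

theorem sum_cast (ψ : ZMod p → ZMod p) :
    ∑ k ∈ Finset.range p, ψ (k : ZMod p) = ∑ t, ψ t := by
  refine Finset.sum_nbij' (fun k => (k : ZMod p)) (fun t => t.val) ?_ ?_ ?_ ?_ ?_
  · intro k _; exact Finset.mem_univ _
  · intro t _; exact Finset.mem_range.2 (ZMod.val_lt t)
  · intro k hk; exact ZMod.val_cast_of_lt (Finset.mem_range.1 hk)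
  · intro t _; exact ZMod.natCast_zmod_val t
  · intro k _; rfl

theorem sum_line (φ : ZMod p → ZMod p) (h : ∑ t, φ t = 0) (u c : ZMod p) :
    ∑ k ∈ Finset.range p, φ (u + k * c) = 0 := by
  by_cases hc : c = 0
  · subst hc
    simp
  · rw [sum_cast (fun t => φ (u + t * c)), ← h]
    exact Equiv.sum_comp ((Equiv.mulRight₀ c hc).trans (Equiv.addLeft u)) φ

/-- the group: all line sums of `m x` in the two directions vanish -/
def H (p : ℕ) [Fact p.Prime] : Subgroup (Wr p) where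
  carrier := {a | Good a.m}
  one_mem' := ⟨fun x v => by simp [one_m], fun x u => by simp [one_m]⟩
  mul_mem' := by
    rintro a b ⟨a1, a2⟩ ⟨b1, b2⟩
    refine ⟨fun x v => ?_, fun x u => ?_⟩
    · simp only [mul_m, Finset.sum_add_distrib, a1, zero_add]
      rw [← b1 (x - a.s) (v + a.f (x + 1))]
      exact Equiv.sum_comp (Equiv.addRight (a.f x)) fun t => b.m (x - a.s) t (v + a.f (x + 1))
    · simp only [mul_m, Finset.sum_add_distrib, a2, zero_add]
      rw [← b2 (x - a.s) (u + a.f x)]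
      exact Equiv.sum_comp (Equiv.addRight (a.f (x + 1))) fun t => b.m (x - a.s) (u + a.f x) t
  inv_mem' := by
    rintro a ⟨a1, a2⟩
    refine ⟨fun x v => ?_, fun x u => ?_⟩
    · simp only [inv_m, Finset.sum_neg_distrib, neg_eq_zero]
      rw [← a1 (x + a.s) (v - a.f (x + 1 + a.s))]
      exact Equiv.sum_comp (Equiv.subRight (a.f (x + a.s)))
        fun t => a.m (x + a.s) t (v - a.f (x + 1 + a.s))
    · simp only [inv_m, Finset.sum_neg_distrib, neg_eq_zero]
      rw [← a2 (x + a.s) (u - a.f (x + a.s))]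
      exact Equiv.sum_comp (Equiv.subRight (a.f (x + 1 + a.s)))
        fun t => a.m (x + a.s) (u - a.f (x + a.s)) t

/-- the subgroup `A`: `f` is supported at `0` and `s = 0` -/
def A (p : ℕ) [Fact p.Prime] : Subgroup (Wr p) where
  carrier := {a | Good a.m ∧ a.s = 0 ∧ ∀ x, x ≠ 0 → a.f x = 0}
  one_mem' := ⟨(H p).one_mem, rfl, fun x _ => rfl⟩
  mul_mem' := by
    rintro a b ⟨a1, a2, a3⟩ ⟨b1, b2, b3⟩
    refine ⟨(H p).mul_mem a1 b1, ?_, fun x hx => ?_⟩
    · rw [mul_s, a2, b2, add_zero]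
    · rw [mul_f, a2, sub_zero, a3 x hx, b3 x hx, add_zero]
  inv_mem' := by
    rintro a ⟨a1, a2, a3⟩
    refine ⟨(H p).inv_mem a1, ?_, fun x hx => ?_⟩
    · rw [inv_s, a2, neg_zero]
    · rw [inv_f, a2, add_zero, a3 x hx, neg_zero]

/-- the subgroup `B`: `m = 0` and the sum of `f` vanishes -/
def B (p : ℕ) [Fact p.Prime] : Subgroup (Wr p) where
  carrier := {a | (∀ x u v, a.m x u v = 0) ∧ ∑ x, a.f x = 0}
  one_mem' := ⟨fun x u v => rfl, by simp [one_f]⟩
  mul_mem' := by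
    rintro a b ⟨a1, a2⟩ ⟨b1, b2⟩
    refine ⟨fun x u v => ?_, ?_⟩
    · rw [mul_m, a1, b1, add_zero]
    · simp only [mul_f, Finset.sum_add_distrib, a2, zero_add]
      rw [← b2]
      exact Equiv.sum_comp (Equiv.subRight a.s) b.f
  inv_mem' := by
    rintro a ⟨a1, a2⟩
    refine ⟨fun x u v => ?_, ?_⟩
    · rw [inv_m, a1, neg_zero]
    · simp only [inv_f, Finset.sum_neg_distrib, neg_eq_zero]
      rw [← a2]
      exact Equiv.sum_comp (Equiv.addRight a.s) a.f

theorem A_le : A p ≤ H p := fun _ ha => ha.1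

theorem B_le : B p ≤ H p := fun a ha =>
  ⟨fun x v => by simp [ha.1], fun x u => by simp [ha.1]⟩

theorem one_iff (a : Wr p) : a = 1 ↔ (∀ x u v, a.m x u v = 0) ∧ (∀ x, a.f x = 0) ∧ a.s = 0 := by
  constructor
  · rintro rfl
    exact ⟨fun _ _ _ => rfl, fun _ => rfl, rfl⟩
  · rintro ⟨h1, h2, h3⟩
    exact ext' h1 h2 h3

theorem pow_f0 (a : Wr p) (h : a.s = 0) (n : ℕ) (x : ZMod p) : (a ^ n).f x = n * a.f x := by
  rw [pow_f]
  simp [h]

theorem A_exp (a : Wr p) (ha : a ∈ A p) : a ^ p = 1 := by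
  obtain ⟨⟨h1, h2⟩, h3, h4⟩ := ha
  rw [one_iff]
  refine ⟨fun x u v => ?_, fun x => ?_, ?_⟩
  · rw [pow_m]
    have e : ∀ k : ℕ, a.m (x - k * a.s) (u + (a ^ k).f x) (v + (a ^ k).f (x + 1)) =
        a.m x (u + k * a.f x) (v + k * a.f (x + 1)) := by
      intro k
      rw [h3, mul_zero, sub_zero, pow_f0 a h3, pow_f0 a h3]
    rw [Finset.sum_congr rfl fun k _ => e k]
    by_cases hx : x = 0
    · have hx1 : a.f (x + 1) = 0 := h4 _ (by rw [hx, zero_add]; exact one_ne_zero)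
      simp only [hx1, mul_zero, add_zero]
      exact sum_line (fun t => a.m x t v) (h1 x v) u (a.f x)
    · have hx1 : a.f x = 0 := h4 _ hx
      simp only [hx1, mul_zero, add_zero]
      exact sum_line (fun t => a.m x u t) (h2 x u) v (a.f (x + 1))
  · rw [pow_f0 a h3]; simp
  · rw [pow_s, h3, mul_zero]

theorem B_exp (a : Wr p) (ha : a ∈ B p) : a ^ p = 1 := by
  obtain ⟨h1, h2⟩ := ha
  rw [one_iff]
  refine ⟨fun x u v => ?_, fun x => ?_, ?_⟩
  · rw [pow_m]
    exact Finset.sum_eq_zero fun k _ => h1 _ _ _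
  · rw [pow_f]
    have := sum_line a.f h2 x (-a.s)
    rw [← this]
    refine Finset.sum_congr rfl fun k _ => ?_
    congr 1
    ring
  · rw [pow_s]; simp

theorem fact' (h : Wr p) (hh : h ∈ H p) : ∃ a ∈ A p, ∃ b ∈ B p, h = a * b := by
  refine ⟨⟨h.m, fun x => if x = 0 then ∑ y, h.f y else 0, 0⟩, ⟨hh, rfl, fun x hx => if_neg hx⟩,
    ⟨fun _ _ _ => 0, fun x => h.f x - if x = 0 then ∑ y, h.f y else 0, h.s⟩,
    ⟨fun _ _ _ => rfl, ?_⟩, ?_⟩
  · simp only [Finset.sum_sub_distrib, Finset.sum_ite_eq', Finset.mem_univ, if_true, sub_self]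
  · apply ext'
    · intro x u v
      simp only [mul_m, add_zero]
    · intro x
      simp only [mul_f, sub_zero]
      ring
    · simp only [mul_s, zero_add]

/-- every element has order dividing `p ^ 3` -/
theorem pow_cube (a : Wr p) : a ^ p ^ 3 = 1 := by
  have h1 : (a ^ p).s = 0 := by rw [pow_s]; simp
  have h2 : ((a ^ p) ^ p).s = 0 := by rw [pow_s, h1, mul_zero]
  have h3 : ∀ x, ((a ^ p) ^ p).f x = 0 := fun x => by rw [pow_f0 _ h1]; simp
  have h4 : ((a ^ p) ^ p) ^ p = 1 := by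
    rw [one_iff]
    refine ⟨fun x u v => ?_, fun x => ?_, ?_⟩
    · rw [pow_m]
      have e : ∀ k : ℕ, ((a ^ p) ^ p).m (x - k * ((a ^ p) ^ p).s)
          (u + (((a ^ p) ^ p) ^ k).f x) (v + (((a ^ p) ^ p) ^ k).f (x + 1)) =
          ((a ^ p) ^ p).m x u v := by
        intro k
        rw [h2, mul_zero, sub_zero, pow_f0 _ h2, pow_f0 _ h2, h3, h3, mul_zero, add_zero, add_zero]
      rw [Finset.sum_congr rfl fun k _ => e k]
      simp
    · rw [pow_f0 _ h2, h3, mul_zero]
    · rw [pow_s, h2, mul_zero]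
  rw [← h4, ← pow_mul, ← pow_mul]
  congr 1
  ring

/-- the element of order `p ^ 3` -/
def g0 (p : ℕ) : Wr p :=
  ⟨fun x u v => if x = 0 then u ^ (p - 2) * v else 0, fun x => if x = 0 then 1 else 0, 1⟩

theorem g0_mem (h3 : 3 ≤ p) : g0 p ∈ H p := by
  have hq : Fintype.card (ZMod p) = p := ZMod.card p
  refine ⟨fun x v => ?_, fun x u => ?_⟩
  · by_cases hx : x = 0
    · simp only [g0, hx, if_true, ← Finset.sum_mul]
      rw [FiniteField.sum_pow_lt_card_sub_one (ZMod p) (p - 2) (by rw [hq]; omega), zero_mul]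
    · simp [g0, hx]
  · by_cases hx : x = 0
    · simp only [g0, hx, if_true]
      have := FiniteField.sum_pow_lt_card_sub_one (ZMod p) 1 (by rw [hq]; omega)
      simp only [pow_one] at this
      rw [← Finset.mul_sum, this, mul_zero]
    · simp [g0, hx]

theorem g0_order (h3 : 3 ≤ p) : g0 p ^ p ^ 2 ≠ 1 := by
  intro h
  have e : g0 p ^ p ^ 2 = (g0 p ^ p) ^ p := by rw [← pow_mul]; congr 1; ring
  rw [e] at h
  have hs : (g0 p ^ p).s = 0 := by rw [pow_s]; simp
  have hf : ∀ x, (g0 p ^ p).f x = 1 := by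
    intro x
    rw [pow_f]
    have e1 : ∀ k : ℕ, (g0 p).f (x - k * (g0 p).s) = if x - (k : ZMod p) = 0 then 1 else 0 := by
      intro k
      simp [g0]
    rw [Finset.sum_congr rfl fun k _ => e1 k,
      sum_cast (fun t => if x - t = 0 then (1 : ZMod p) else 0)]
    simp only [sub_eq_zero, Finset.sum_ite_eq, Finset.mem_univ, if_true]
  have hm : ∀ u v, (g0 p ^ p).m 0 u v = u ^ (p - 2) * v := by
    intro u v
    rw [pow_m]
    rw [Finset.sum_eq_single 0]
    · simp [g0, one_f]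
    · intro k hk hk0
      have : ¬ ((0 : ZMod p) - k * (g0 p).s = 0) := by
        have e2 : (g0 p).s = 1 := rfl
        rw [e2, mul_one, zero_sub, neg_eq_zero, ZMod.natCast_eq_zero_iff]
        intro hd
        exact absurd (Nat.le_of_dvd (Nat.pos_of_ne_zero hk0) hd)
          (not_le.2 (Finset.mem_range.1 hk))
      show (if (0 : ZMod p) - k * (g0 p).s = 0 then _ else _) = _
      rw [if_neg this]
    · intro h0
      exact absurd (Finset.mem_range.2 hp.out.pos) h0
  have h0 := congrArg (fun a : Wr p => a.m 0 0 0) h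
  simp only [one_m] at h0
  rw [pow_m] at h0
  have e3 : ∀ k : ℕ, (g0 p ^ p).m (0 - k * (g0 p ^ p).s) (0 + ((g0 p ^ p) ^ k).f 0)
      (0 + ((g0 p ^ p) ^ k).f (0 + 1)) = (k : ZMod p) ^ (p - 1) := by
    intro k
    rw [hs, mul_zero, sub_zero, pow_f0 _ hs, pow_f0 _ hs, hf, hf, hm, mul_one, zero_add, ← pow_succ]
    congr 1
    omega
  rw [Finset.sum_congr rfl fun k _ => e3 k, sum_cast (fun t => t ^ (p - 1))] at h0
  have h1 : ∑ t : ZMod p, t ^ (p - 1) = -1 := by
    have h2 : ∀ t : ZMod p, t ^ (p - 1) = 1 - if t = 0 then 1 else 0 := by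
      intro t
      by_cases ht : t = 0
      · rw [if_pos ht, ht, zero_pow (by omega), sub_self]
      · rw [if_neg ht, sub_zero, ZMod.pow_card_sub_one_eq_one ht]
    rw [Finset.sum_congr rfl fun t _ => h2 t, Finset.sum_sub_distrib]
    simp
  rw [h1] at h0
  exact one_ne_zero (neg_eq_zero.1 h0)

end Pool.Agent.H992.EX
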