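import Pool.Agent.H992.EX.Wreath

/-!
# A 2-group of exponent 16 which is a product of a subgroup of exponent 4 and a Klein four group
-/

set_option autoImplicit false

namespace Pool.Agent.H992.EX.Two

/-- the local group: functions on the plane over `ZMod 2`, extended by a central `z` -/
@[ext] structure N where
  w : ZMod 2 → ZMod 2 → ZMod 2
  z : ZMod 2

/-- the cocycle -/
def c (a b : ZMod 2 → ZMod 2 → ZMod 2) : ZMod 2 := a 1 1 * b 0 0 + a 0 1 * b 1 0

theorem two_eq (a : ZMod 2) : a + a = 0 := CharTwo.add_self_eq_zero a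

theorem N.ext' {a b : N} (h1 : ∀ u v, a.w u v = b.w u v) (h2 : a.z = b.z) : a = b :=
  N.ext (funext fun u => funext fun v => h1 u v) h2

instance : Mul N := ⟨fun a b => ⟨fun u v => a.w u v + b.w u v, a.z + b.z + c a.w b.w⟩⟩
instance : One N := ⟨⟨fun _ _ => 0, 0⟩⟩
instance : Inv N := ⟨fun a => ⟨fun u v => a.w u v, a.z + c a.w a.w⟩⟩

theorem N.mul_w (a b : N) (u v : ZMod 2) : (a * b).w u v = a.w u v + b.w u v := rfl
theorem N.mul_z (a b : N) : (a * b).z = a.z + b.z + c a.w b.w := rfl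
theorem N.one_w (u v : ZMod 2) : (1 : N).w u v = 0 := rfl
theorem N.one_z : (1 : N).z = 0 := rfl
theorem N.inv_w (a : N) (u v : ZMod 2) : (a⁻¹).w u v = a.w u v := rfl
theorem N.inv_z (a : N) : (a⁻¹).z = a.z + c a.w a.w := rfl

instance : Group N :=
  Group.ofLeftAxioms
    (fun a b d => by
      apply N.ext'
      · intro u v; simp only [N.mul_w]; ring
      · simp only [N.mul_z, c, N.mul_w]; ring)
    (fun a => by
      apply N.ext'
      · intro u v; simp only [N.mul_w, N.one_w, zero_add]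
      · simp only [N.mul_z, c, N.one_w, N.one_z]; ring)
    (fun a => by
      apply N.ext'
      · intro u v; simp only [N.mul_w, N.inv_w, N.one_w, two_eq]
      · simp only [N.mul_z, N.inv_z, c, N.inv_w, N.one_z]
        have := two_eq (a.z + (a.w 1 1 * a.w 0 0 + a.w 0 1 * a.w 1 0))
        linear_combination this)

/-- the action of the plane -/
def act (s t : ZMod 2) (a : N) : N := ⟨fun u v => a.w (u + s) (v + t), a.z + t * c a.w a.w⟩

theorem act_zero (a : N) : act 0 0 a = a := by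
  apply N.ext'
  · intro u v; simp only [act, add_zero]
  · simp only [act, zero_mul, add_zero]

theorem zmod2 (t : ZMod 2) : t = 0 ∨ t = 1 := by
  revert t; decide

theorem c_tr (a b : ZMod 2 → ZMod 2 → ZMod 2) (s t : ZMod 2) :
    c (fun u v => a (u + s) (v + t)) (fun u v => b (u + s) (v + t)) =
      (1 + t) * c a b + t * c b a := by
  have e : (1 : ZMod 2) + 1 = 0 := rfl
  rcases zmod2 s with rfl | rfl <;> rcases zmod2 t with rfl | rfl <;>
    simp only [c, add_zero, zero_add, e] <;> ring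

theorem act_mul (s t : ZMod 2) (a b : N) : act s t (a * b) = act s t a * act s t b := by
  apply N.ext'
  · intro u v; rfl
  · have h := c_tr a.w b.w s t
    simp only [act, N.mul_z]
    rw [h]
    have h2 : c (a * b).w (a * b).w = c a.w a.w + c a.w b.w + c b.w a.w + c b.w b.w := by
      simp only [c, N.mul_w]; ring
    rw [h2]
    have h3 := two_eq (t * c a.w b.w)
    rcases zmod2 t with rfl | rfl
    · ring
    · have e : (1 : ZMod 2) + 1 = 0 := rfl
      rw [e, one_mul, zero_mul, zero_add]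
      have h4 := two_eq (c a.w b.w)
      calc a.z + b.z + c a.w b.w + (c a.w a.w + c a.w b.w + c b.w a.w + c b.w b.w)
          = a.z + b.z + (c a.w b.w + c a.w b.w) + (c a.w a.w + c b.w a.w + c b.w b.w) := by ring
        _ = _ := by rw [h4]; ring

theorem act_act (s t s' t' : ZMod 2) (a : N) :
    act s t (act s' t' a) = act (s + s') (t + t') a := by
  apply N.ext'
  · intro u v; simp only [act]; rw [add_assoc, add_assoc]
  · have h := c_tr a.w a.w s' t'
    simp only [act]
    rw [h]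
    have e := two_eq (t' * c a.w a.w)
    calc a.z + t' * c a.w a.w + t * ((1 + t') * c a.w a.w + t' * c a.w a.w)
        = a.z + t' * c a.w a.w + t * c a.w a.w + t * (t' * c a.w a.w + t' * c a.w a.w) := by ring
      _ = _ := by rw [e]; ring

theorem act_one (s t : ZMod 2) : act s t 1 = 1 := by
  have h := act_mul s t 1 1
  rw [one_mul] at h
  exact (left_eq_mul.1 h)

theorem N.sq (a : N) : a * a = ⟨fun _ _ => 0, c a.w a.w⟩ := by
  apply N.ext'
  · intro u v; rw [N.mul_w, two_eq]
  · rw [N.mul_z, two_eq, zero_add]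

theorem sq_u (a : N) (s : ZMod 2) : (a * act s 0 a) * (a * act s 0 a) = 1 := by
  rw [N.sq]
  apply N.ext'
  · intro u v; rfl
  · change c (a * act s 0 a).w (a * act s 0 a).w = 0
    rcases zmod2 s with rfl | rfl
    · simp only [c, N.mul_w, act, add_zero, two_eq, mul_zero]
    · have e : (1 : ZMod 2) + 1 = 0 := rfl
      simp only [c, N.mul_w, act, add_zero, zero_add, e]
      have h := two_eq ((a.w 1 1 + a.w 0 1) * (a.w 0 0 + a.w 1 0))
      linear_combination h

theorem sq_v (a : N) (t : ZMod 2) : (a * act 0 t a) * (a * act 0 t a) = 1 := by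
  rw [N.sq]
  apply N.ext'
  · intro u v; rfl
  · change c (a * act 0 t a).w (a * act 0 t a).w = 0
    rcases zmod2 t with rfl | rfl
    · simp only [c, N.mul_w, act, add_zero, two_eq, mul_zero]
    · have e : (1 : ZMod 2) + 1 = 0 := rfl
      simp only [c, N.mul_w, act, add_zero, zero_add, e]
      have h := two_eq ((a.w 1 1 + a.w 1 0) * (a.w 0 0 + a.w 0 1))
      linear_combination h

/-- the group -/
@[ext] structure G where
  n : ZMod 2 → N
  f : ZMod 2 → ZMod 2
  s : ZMod 2

theorem G.ext' {a b : G} (h1 : ∀ x, a.n x = b.n x) (h2 : ∀ x, a.f x = b.f x) (h3 : a.s = b.s) :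
    a = b := G.ext (funext h1) (funext h2) h3

instance : Mul G := ⟨fun a b => ⟨fun x => a.n x * act (a.f x) (a.f (x + 1)) (b.n (x - a.s)),
  fun x => a.f x + b.f (x - a.s), a.s + b.s⟩⟩
instance : One G := ⟨⟨fun _ => 1, fun _ => 0, 0⟩⟩
instance : Inv G := ⟨fun a => ⟨fun x => act (-a.f (x + a.s)) (-a.f (x + 1 + a.s)) (a.n (x + a.s))⁻¹,
  fun x => -a.f (x + a.s), -a.s⟩⟩

theorem mul_n (a b : G) (x : ZMod 2) :
    (a * b).n x = a.n x * act (a.f x) (a.f (x + 1)) (b.n (x - a.s)) := rfl
theorem mul_f (a b : G) (x : ZMod 2) : (a * b).f x = a.f x + b.f (x - a.s) := rfl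
theorem mul_s (a b : G) : (a * b).s = a.s + b.s := rfl
theorem one_n (x : ZMod 2) : (1 : G).n x = 1 := rfl
theorem one_f (x : ZMod 2) : (1 : G).f x = 0 := rfl
theorem one_s : (1 : G).s = 0 := rfl
theorem inv_n (a : G) (x : ZMod 2) :
    (a⁻¹).n x = act (-a.f (x + a.s)) (-a.f (x + 1 + a.s)) (a.n (x + a.s))⁻¹ := rfl
theorem inv_f (a : G) (x : ZMod 2) : (a⁻¹).f x = -a.f (x + a.s) := rfl
theorem inv_s (a : G) : (a⁻¹).s = -a.s := rfl

instance : Group G :=
  Group.ofLeftAxioms
    (fun a b d => by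
      apply G.ext'
      · intro x
        simp only [mul_n, mul_f, mul_s, act_mul, act_act]
        have h1 : x - (a.s + b.s) = x - a.s - b.s := by ring
        have h2 : x + 1 - a.s = x - a.s + 1 := by ring
        rw [h1, h2, mul_assoc]
      · intro x
        simp only [mul_f, mul_s]
        have h1 : x - (a.s + b.s) = x - a.s - b.s := by ring
        rw [h1, add_assoc]
      · simp only [mul_s]; ring)
    (fun a => by
      apply G.ext'
      · intro x
        simp only [mul_n, one_n, one_f, one_s, sub_zero, one_mul, act_zero]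
      · intro x
        simp only [mul_f, one_f, one_s, sub_zero, zero_add]
      · simp only [mul_s, one_s, zero_add])
    (fun a => by
      apply G.ext'
      · intro x
        simp only [mul_n, inv_n, inv_f, inv_s, one_n, sub_neg_eq_add]
        rw [← act_mul, inv_mul_cancel, act_one]
      · intro x
        simp only [mul_f, inv_f, inv_s, one_f, sub_neg_eq_add]
        ring
      · simp only [mul_s, inv_s, one_s]; ring)

/-- the subgroup of exponent 4 -/
def A : Subgroup G where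
  carrier := {a | a.s = 0 ∧ a.f 1 = 0}
  one_mem' := ⟨rfl, rfl⟩
  mul_mem' := by
    rintro a b ⟨a1, a2⟩ ⟨b1, b2⟩
    refine ⟨?_, ?_⟩
    · rw [mul_s, a1, b1, add_zero]
    · rw [mul_f, a1, sub_zero, a2, b2, add_zero]
  inv_mem' := by
    rintro a ⟨a1, a2⟩
    refine ⟨?_, ?_⟩
    · rw [inv_s, a1, neg_zero]
    · rw [inv_f, a1, add_zero, a2, neg_zero]

/-- the Klein four group -/
def B : Subgroup G where
  carrier := {a | (∀ x, a.n x = 1) ∧ a.f 0 = a.f 1}
  one_mem' := ⟨fun _ => rfl, rfl⟩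
  mul_mem' := by
    rintro a b ⟨a1, a2⟩ ⟨b1, b2⟩
    refine ⟨fun x => ?_, ?_⟩
    · rw [mul_n, a1, b1, act_one, mul_one]
    · rw [mul_f, mul_f, a2]
      have : ∀ x y : ZMod 2, b.f x = b.f y := by
        intro x y
        rcases zmod2 x with rfl | rfl <;> rcases zmod2 y with rfl | rfl <;> simp [b2]
      rw [this (0 - a.s) (1 - a.s)]
  inv_mem' := by
    rintro a ⟨a1, a2⟩
    refine ⟨fun x => ?_, ?_⟩
    · rw [inv_n, a1, inv_one, act_one]
    · rw [inv_f, inv_f]
      have : ∀ x y : ZMod 2, a.f x = a.f y := by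
        intro x y
        rcases zmod2 x with rfl | rfl <;> rcases zmod2 y with rfl | rfl <;> simp [a2]
      rw [this (0 + a.s) (1 + a.s)]

theorem sq_s (a : G) : (a * a).s = 0 := by rw [mul_s, two_eq]

theorem sq_f (a : G) (h : a.s = 0) (x : ZMod 2) : (a * a).f x = 0 := by
  rw [mul_f, h, sub_zero, two_eq]

theorem A_exp (a : G) (ha : a ∈ A) : a ^ 4 = 1 := by
  obtain ⟨h1, h2⟩ := ha
  have e : a ^ 4 = (a * a) * (a * a) := by rw [← sq, ← sq, ← pow_mul]
  rw [e]
  apply G.ext'
  · intro x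
    rw [mul_n, sq_s, sq_f a h1, sq_f a h1, sub_zero, act_zero, mul_n, h1, sub_zero, one_n]
    rcases zmod2 x with rfl | rfl
    · rw [zero_add, h2]; exact sq_u _ _
    · have e : (1 : ZMod 2) + 1 = 0 := rfl
      rw [e, h2]; exact sq_v _ _
  · intro x
    exact sq_f _ (sq_s a) x
  · exact sq_s _

theorem B_exp (a : G) (ha : a ∈ B) : a ^ 2 = 1 := by
  obtain ⟨h1, h2⟩ := ha
  rw [sq]
  apply G.ext'
  · intro x
    rw [mul_n, h1, h1, act_one, mul_one]; rfl
  · intro x
    rw [mul_f]
    have : ∀ x y : ZMod 2, a.f x = a.f y := by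
      intro x y
      rcases zmod2 x with rfl | rfl <;> rcases zmod2 y with rfl | rfl <;> simp [h2]
    rw [this (x - a.s) x, two_eq]; rfl
  · exact sq_s _

theorem G_exp (a : G) : a ^ 16 = 1 := by
  have e : a ^ 16 = (((a * a) * (a * a)) ^ 2) ^ 2 := by
    rw [← sq, ← sq, ← pow_mul, ← pow_mul, ← pow_mul]
  have key : ∀ b : G, b.s = 0 → (∀ x, b.f x = 0) → (b ^ 2) ^ 2 = 1 := by
    intro b hs hf
    have h1 : ∀ x, (b ^ 2).n x = b.n x * b.n x := by
      intro x
      rw [sq, mul_n, hs, sub_zero, hf, hf, act_zero]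
    have h2 : (b ^ 2).s = 0 := by rw [sq, sq_s]
    have h3 : ∀ x, (b ^ 2).f x = 0 := fun x => by rw [sq, sq_f b hs]
    apply G.ext'
    · intro x
      rw [sq (b ^ 2), mul_n, h2, sub_zero, h3, h3, act_zero, h1]
      have := sq_u (b.n x) 0
      rw [act_zero] at this
      exact this
    · intro x
      rw [sq (b ^ 2), sq_f _ h2]; rfl
    · rw [sq (b ^ 2), sq_s]; rfl
  rw [e]
  exact key _ (sq_s _) (fun x => sq_f _ (sq_s a) x)

theorem fact' (h : G) : ∃ a ∈ A, ∃ b ∈ B, h = a * b := by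
  refine ⟨⟨h.n, fun x => if x = 0 then h.f 0 + h.f 1 else 0, 0⟩, ⟨rfl, by simp⟩,
    ⟨fun _ => 1, fun _ => h.f 1, h.s⟩, ⟨fun _ => rfl, rfl⟩, ?_⟩
  apply G.ext'
  · intro x
    rw [mul_n, act_one, mul_one]
  · intro x
    rw [mul_f]
    rcases zmod2 x with rfl | rfl
    · simp only [if_true]
      rw [add_assoc, two_eq, add_zero]
    · simp
  · rw [mul_s]; simp

/-- the element of order 16 -/
def g0 : G := ⟨fun x => ⟨fun u v => if x = 0 ∧ u = 0 ∧ v = 0 then 1 else 0, 0⟩,
  fun x => if x = 0 then 1 else 0, 1⟩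

theorem g0_order : ¬ g0 ^ 8 = 1 := by
  intro h
  have e : g0 ^ 8 = ((g0 * g0) * (g0 * g0)) * ((g0 * g0) * (g0 * g0)) := by
    rw [← sq, ← sq, ← sq, ← pow_mul, ← pow_mul]
  rw [e] at h
  have h1 := congrArg (fun a : G => (a.n 0).z) h
  revert h1
  decide

theorem N.finite : Finite N :=
  Finite.of_injective (fun a : N => (a.w, a.z)) fun a b h => by
    have h1 := Prod.mk.inj h
    exact N.ext h1.1 h1.2

theorem G.finite : Finite G := by
  have := N.finite
  exact Finite.of_injective (fun a : G => (a.n, a.f, a.s)) fun a b h => by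
    have h1 := Prod.mk.inj h
    have h2 := Prod.mk.inj h1.2
    exact G.ext h1.1 h2.1 h2.2

theorem ord_A : ∃ a ∈ A, orderOf a = 4 := by
  refine ⟨⟨fun x => ⟨fun u v => if x = 0 ∧ v = u then 1 else 0, 0⟩, fun _ => 0, 0⟩, ⟨rfl, rfl⟩, ?_⟩
  refine orderOf_eq_prime_pow (p := 2) (n := 1) ?_ (A_exp _ ⟨rfl, rfl⟩)
  rw [pow_one, sq]
  intro h
  have h1 := congrArg (fun a : G => (a.n 0).z) h
  revert h1
  decide

theorem ord_B : ∃ a ∈ B, orderOf a = 2 := by
  refine ⟨⟨fun _ => 1, fun _ => 0, 1⟩, ⟨fun _ => rfl, rfl⟩, ?_⟩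
  refine orderOf_eq_prime (B_exp _ ⟨fun _ => rfl, rfl⟩) fun h => ?_
  exact one_ne_zero (α := ZMod 2) (congrArg G.s h)

theorem ord_G : orderOf g0 = 16 :=
  orderOf_eq_prime_pow (p := 2) (n := 3) g0_order (G_exp _)

/-- exponents 4, 2, 16 -/
theorem fac_two : Fac 2 2 1 4 := by
  have := G.finite
  exact ⟨G, inferInstance, inferInstance, A, B, fact', ⟨fun x hx => A_exp x hx, ord_A⟩,
    ⟨fun x hx => by rw [pow_one]; exact B_exp x hx, ord_B⟩, G_exp, g0, ord_G⟩

theorem card_B : Nat.card B = 4 := by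
  have hf : ∀ (a : B) (x : ZMod 2), a.1.f x = a.1.f 0 := by
    intro a x
    rcases zmod2 x with rfl | rfl
    · rfl
    · exact a.2.2.symm
  have e : B ≃ ZMod 2 × ZMod 2 :=
    { toFun := fun a => (a.1.f 0, a.1.s)
      invFun := fun y => ⟨⟨fun _ => 1, fun _ => y.1, y.2⟩, fun _ => rfl, rfl⟩
      left_inv := fun a => Subtype.ext (G.ext' (fun x => (a.2.1 x).symm)
        (fun x => (hf a x).symm) rfl)
      right_inv := fun y => rfl }
  rw [Nat.card_congr e]
  simp

theorem exps : IsPGroup 2 G ∧ Monoid.exponent A = 4 ∧ Monoid.exponent B = 2 ∧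
    Monoid.exponent G = 16 := by
  have key : ∀ (S : Subgroup G) (n : ℕ), (∀ a ∈ S, a ^ n = 1) → (∃ a ∈ S, orderOf a = n) →
      Monoid.exponent S = n := by
    rintro S n hS ⟨a, ha, h⟩
    refine Nat.dvd_antisymm (Monoid.exponent_dvd_of_forall_pow_eq_one fun b =>
      Subtype.ext (hS b.1 b.2)) ?_
    have h1 := Monoid.order_dvd_exponent (⟨a, ha⟩ : S)
    rw [← Subgroup.orderOf_coe] at h1
    rw [← h]
    exact h1
  refine ⟨fun g => ⟨4, G_exp g⟩, key A 4 A_exp ord_A, key B 2 B_exp ord_B,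
    Nat.dvd_antisymm (Monoid.exponent_dvd_of_forall_pow_eq_one G_exp) ?_⟩
  rw [← ord_G]
  exact Monoid.order_dvd_exponent g0

/-- all exponents -/
theorem fac_all (m n g : ℕ) (hm : g ≤ m) (hn : g ≤ n) (h : 3 * g ≤ m + n) :
    Fac 2 m n (m + n + g) := by
  have h2 := fac_mul (fac_mul (fac_pow fac_two (min g (m - g)))
    (fac_pow (fac_symm fac_two) (g - min g (m - g))))
    (fac_mul (fac_pow (fac_cyclic 2) (m - (min g (m - g) + g)))
      (fac_pow (fac_symm (fac_cyclic 2)) (n - (2 * g - min g (m - g)))))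
  have e1 : min g (m - g) * 2 + (g - min g (m - g)) * 1 +
      ((m - (min g (m - g) + g)) * 1 + (n - (2 * g - min g (m - g))) * 0) = m := by omega
  have e2 : min g (m - g) * 1 + (g - min g (m - g)) * 2 +
      ((m - (min g (m - g) + g)) * 0 + (n - (2 * g - min g (m - g))) * 1) = n := by omega
  have e3 : min g (m - g) * 4 + (g - min g (m - g)) * 4 +
      ((m - (min g (m - g) + g)) * 1 + (n - (2 * g - min g (m - g))) * 1) = m + n + g := by omega
  rw [e1, e2, e3] at h2
  exact h2

end Pool.Agent.H992.EX.Two
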