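import Pool.Agent.H992.EX.Sub

/-!
# Wreath products of factorized groups
-/

set_option autoImplicit false

namespace Pool.Agent.H992.EX

/-- the regular wreath product: functions `H → G`, permuted by `H` -/
@[ext] structure WP (G H : Type) where
  f : H → G
  h : H

section
variable {G H : Type} [Group G] [Group H]

instance : Mul (WP G H) := ⟨fun a b => ⟨fun x => a.f x * b.f (a.h⁻¹ * x), a.h * b.h⟩⟩
instance : One (WP G H) := ⟨⟨fun _ => 1, 1⟩⟩
instance : Inv (WP G H) := ⟨fun a => ⟨fun x => (a.f (a.h * x))⁻¹, a.h⁻¹⟩⟩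

theorem WP.mul_f (a b : WP G H) (x : H) : (a * b).f x = a.f x * b.f (a.h⁻¹ * x) := rfl
theorem WP.mul_h (a b : WP G H) : (a * b).h = a.h * b.h := rfl
theorem WP.one_f (x : H) : (1 : WP G H).f x = 1 := rfl
theorem WP.one_h : (1 : WP G H).h = 1 := rfl
theorem WP.inv_f (a : WP G H) (x : H) : (a⁻¹).f x = (a.f (a.h * x))⁻¹ := rfl
theorem WP.inv_h (a : WP G H) : (a⁻¹).h = a.h⁻¹ := rfl

instance : Group (WP G H) :=
  Group.ofLeftAxioms
    (fun a b c => by
      apply WP.ext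
      · funext x
        simp only [WP.mul_f, WP.mul_h, mul_inv_rev, mul_assoc]
      · simp only [WP.mul_h, mul_assoc])
    (fun a => by
      apply WP.ext
      · funext x
        simp only [WP.mul_f, WP.one_f, WP.one_h, inv_one, one_mul]
      · simp only [WP.mul_h, WP.one_h, one_mul])
    (fun a => by
      apply WP.ext
      · funext x
        simp only [WP.mul_f, WP.inv_f, WP.inv_h, WP.one_f, inv_inv, inv_mul_cancel]
      · simp only [WP.mul_h, WP.inv_h, WP.one_h, inv_mul_cancel])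

theorem WP.pow_h (a : WP G H) (n : ℕ) : (a ^ n).h = a.h ^ n := by
  induction n with
  | zero => rw [pow_zero, pow_zero]; rfl
  | succ n ih => rw [pow_succ, WP.mul_h, ih, pow_succ]

/-- powers of elements of the base group -/
theorem WP.pow_f0 (a : WP G H) (h : a.h = 1) (n : ℕ) (x : H) : (a ^ n).f x = a.f x ^ n := by
  induction n with
  | zero => rw [pow_zero, pow_zero]; rfl
  | succ n ih => rw [pow_succ, WP.mul_f, ih, WP.pow_h, h, one_pow, inv_one, one_mul, pow_succ]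

/-- the wreath product of two subgroups -/
def WP.sub (A : Subgroup G) (B : Subgroup H) : Subgroup (WP G H) where
  carrier := {a | (∀ x, a.f x ∈ A) ∧ a.h ∈ B}
  one_mem' := ⟨fun _ => A.one_mem, B.one_mem⟩
  mul_mem' := by
    rintro a b ⟨a1, a2⟩ ⟨b1, b2⟩
    exact ⟨fun x => A.mul_mem (a1 x) (b1 _), B.mul_mem a2 b2⟩
  inv_mem' := by
    rintro a ⟨a1, a2⟩
    exact ⟨fun x => A.inv_mem (a1 _), B.inv_mem a2⟩

theorem WP.sub_exp {A : Subgroup G} {B : Subgroup H} {m n : ℕ} (hA : ∀ a ∈ A, a ^ m = 1)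
    (hB : ∀ b ∈ B, b ^ n = 1) : ∀ a ∈ WP.sub A B, a ^ (m * n) = 1 := by
  rintro a ⟨a1, a2⟩
  have h1 : (a ^ n).h = 1 := by rw [WP.pow_h, hB _ a2]
  have h2 : ∀ x, (a ^ n).f x ∈ A := ((WP.sub A B).pow_mem ⟨a1, a2⟩ n).1
  rw [mul_comm m n, pow_mul]
  apply WP.ext
  · funext x
    rw [WP.pow_f0 _ h1, hA _ (h2 x)]
    rfl
  · rw [WP.pow_h, h1, one_pow]
    rfl

/-- the factorization of the wreath product -/
theorem WP.fact {A B : Subgroup G} {A' B' : Subgroup H}
    (h1 : ∀ g : G, ∃ a ∈ A, ∃ b ∈ B, g = a * b) (h2 : ∀ g : H, ∃ a ∈ A', ∃ b ∈ B', g = a * b)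
    (g : WP G H) : ∃ a ∈ WP.sub A A', ∃ b ∈ WP.sub B B', g = a * b := by
  choose α hα β hβ hαβ using h1
  obtain ⟨a, ha, b, hb, hab⟩ := h2 g.h
  refine ⟨⟨fun x => α (g.f x), a⟩, ⟨fun x => hα _, ha⟩, ⟨fun x => β (g.f (a * x)), b⟩,
    ⟨fun x => hβ _, hb⟩, ?_⟩
  apply WP.ext
  · funext x
    simp only [WP.mul_f, mul_inv_cancel_left]
    exact hαβ _
  · simp only [WP.mul_h]
    exact hab

open Classical in
/-- an element of large order -/
noncomputable def WP.el (g : G) (h : H) : WP G H := ⟨fun x => if x = 1 then g else 1, h⟩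

open Classical in
theorem WP.el_mem {A : Subgroup G} {B : Subgroup H} {g : G} {h : H} (hg : g ∈ A) (hh : h ∈ B) :
    WP.el g h ∈ WP.sub A B := by
  refine ⟨fun x => ?_, hh⟩
  show (if x = 1 then g else 1) ∈ A
  split_ifs
  · exact hg
  · exact A.one_mem

open Classical in
theorem WP.el_pow (g : G) (h : H) (n : ℕ) (hn : ∀ k, 0 < k → k < n → h ^ k ≠ 1) :
    ∀ k, 0 < k → k ≤ n → (WP.el g h ^ k).f 1 = g := by
  intro k
  induction k with
  | zero => intro h; exact absurd h (lt_irrefl 0)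
  | succ k ih =>
    intro _ hk
    rcases Nat.eq_zero_or_pos k with hk0 | hk0
    · subst hk0
      rw [zero_add, pow_one]
      simp [WP.el]
    · rw [pow_succ, WP.mul_f, ih hk0 (by omega), WP.pow_h]
      have h1 : ¬ (((WP.el g h).h ^ k)⁻¹ * 1 = 1) := by
        rw [mul_one, inv_eq_one]
        exact hn k hk0 (by omega)
      have h2 : (WP.el g h).f (((WP.el g h).h ^ k)⁻¹ * 1) = 1 := by
        show (if ((WP.el g h).h ^ k)⁻¹ * 1 = 1 then g else 1) = 1
        rw [if_neg h1]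
      rw [h2, mul_one]

theorem WP.el_dvd [Finite H] (g : G) (h : H) (j : ℕ) (hj : WP.el g h ^ j = 1) :
    orderOf h * orderOf g ∣ j := by
  have h0 : h ^ j = 1 := by
    have := congrArg WP.h hj
    rw [WP.pow_h] at this
    exact this
  obtain ⟨i, rfl⟩ := orderOf_dvd_of_pow_eq_one h0
  refine Nat.mul_dvd_mul_left _ (orderOf_dvd_of_pow_eq_one ?_)
  have h1 : (WP.el g h ^ orderOf h).h = 1 := by
    rw [WP.pow_h]
    exact pow_orderOf_eq_one h
  rw [pow_mul] at hj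
  have h2 := congrArg (fun v : WP G H => v.f 1) hj
  simp only [WP.one_f] at h2
  rw [WP.pow_f0 _ h1, WP.el_pow g h (orderOf h)
    (fun k hk hlt h => absurd (orderOf_le_of_pow_eq_one hk h) (not_le.2 hlt))
    (orderOf h) (orderOf_pos h) le_rfl] at h2
  exact h2

theorem WP.finite [Finite G] [Finite H] : Finite (WP G H) :=
  Finite.of_injective (fun a : WP G H => (a.f, a.h)) fun a b h => by
    have := Prod.mk.inj h
    exact WP.ext this.1 this.2

end

theorem Wr.finite (p : ℕ) [NeZero p] : Finite (Wr p) :=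
  Finite.of_injective (fun a : Wr p => (a.m, a.f, a.s)) fun a b h => by
    have h1 := Prod.mk.inj h
    have h2 := Prod.mk.inj h1.2
    exact Wr.ext h1.1 h2.1 h2.2

/-- `G = AB` with `A` of exponent `p ^ a`, `B` of exponent `p ^ b` and `G` of exponent `p ^ c` -/
def Fac (p a b c : ℕ) : Prop :=
  ∃ (G : Type) (_ : Group G) (_ : Finite G) (A B : Subgroup G),
    (∀ g : G, ∃ x ∈ A, ∃ y ∈ B, g = x * y) ∧
      ((∀ x ∈ A, x ^ p ^ a = 1) ∧ ∃ x ∈ A, orderOf x = p ^ a) ∧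
      ((∀ y ∈ B, y ^ p ^ b = 1) ∧ ∃ y ∈ B, orderOf y = p ^ b) ∧
      (∀ g : G, g ^ p ^ c = 1) ∧ ∃ g : G, orderOf g = p ^ c

theorem fac_base (p : ℕ) [hp : Fact p.Prime] (h3 : 3 ≤ p) : Fac p 1 1 3 := by
  have : NeZero p := ⟨hp.out.ne_zero⟩
  have := Wr.finite p
  have hA : ∀ x ∈ (A p).subgroupOf (H p), x ^ p ^ 1 = 1 := by
    rintro ⟨x, hx⟩ hxA
    rw [pow_one]
    exact Subtype.ext (A_exp x hxA)
  have hB : ∀ x ∈ (B p).subgroupOf (H p), x ^ p ^ 1 = 1 := by
    rintro ⟨x, hx⟩ hxB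
    rw [pow_one]
    exact Subtype.ext (B_exp x hxB)
  refine ⟨H p, inferInstance, inferInstance, (A p).subgroupOf (H p), (B p).subgroupOf (H p),
    ?_, ⟨hA, ?_⟩, ⟨hB, ?_⟩, ?_, ?_⟩
  · rintro ⟨g, hg⟩
    obtain ⟨a, ha, b, hb, hab⟩ := fact' g hg
    exact ⟨⟨a, A_le ha⟩, ha, ⟨b, B_le hb⟩, hb, Subtype.ext hab⟩
  · have h1 : (⟨fun _ _ _ => 0, fun x => if x = 0 then 1 else 0, 0⟩ : Wr p) ∈ A p :=
      ⟨⟨fun x v => by simp, fun x u => by simp⟩, rfl, fun x hx => if_neg hx⟩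
    refine ⟨⟨_, A_le h1⟩, h1, ?_⟩
    rw [pow_one]
    refine orderOf_eq_prime (Subtype.ext (A_exp _ h1)) fun h => ?_
    have h2 := congrArg (fun w : H p => w.1.f 0) h
    simp only [if_true] at h2
    exact one_ne_zero h2
  · have h1 : (⟨fun _ _ _ => 0, fun _ => 0, 1⟩ : Wr p) ∈ B p := ⟨fun _ _ _ => rfl, by simp⟩
    refine ⟨⟨_, B_le h1⟩, h1, ?_⟩
    rw [pow_one]
    refine orderOf_eq_prime (Subtype.ext (B_exp _ h1)) fun h => ?_
    have h2 := congrArg (fun w : H p => w.1.s) h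
    exact one_ne_zero (α := ZMod p) h2
  · rintro ⟨x, hx⟩
    exact Subtype.ext (pow_cube x)
  · refine ⟨⟨g0 p, g0_mem h3⟩, ?_⟩
    refine orderOf_eq_prime_pow (p := p) (n := 2) ?_ ?_
    · intro h
      exact g0_order h3 (congrArg Subtype.val h)
    · exact Subtype.ext (pow_cube _)

theorem fac_symm {p a b c : ℕ} (h : Fac p a b c) : Fac p b a c := by
  obtain ⟨G, i1, i2, A, B, f, hA, hB, hG⟩ := h
  refine ⟨G, i1, i2, B, A, fun g => ?_, hB, hA, hG⟩
  obtain ⟨x, hx, y, hy, h⟩ := f g⁻¹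
  refine ⟨y⁻¹, B.inv_mem hy, x⁻¹, A.inv_mem hx, ?_⟩
  rw [← mul_inv_rev, ← h, inv_inv]

theorem fac_cyclic (p : ℕ) [hp : Fact p.Prime] : Fac p 1 0 1 := by
  have : NeZero p := ⟨hp.out.ne_zero⟩
  have h1 : ∀ x : Multiplicative (ZMod p), x ^ p ^ 1 = 1 := by
    intro x
    rw [pow_one]
    apply Multiplicative.toAdd.injective
    simp
  have h2 : orderOf (Multiplicative.ofAdd (1 : ZMod p)) = p ^ 1 := by
    rw [pow_one]
    refine orderOf_eq_prime ?_ fun h => ?_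
    · have := h1 (Multiplicative.ofAdd (1 : ZMod p))
      rwa [pow_one] at this
    · exact one_ne_zero (α := ZMod p) (congrArg Multiplicative.toAdd h)
  refine ⟨Multiplicative (ZMod p), inferInstance, inferInstance, ⊤, ⊥,
    fun g => ⟨g, trivial, 1, Subgroup.one_mem _, (mul_one g).symm⟩,
    ⟨fun x _ => h1 x, _, trivial, h2⟩, ⟨fun x hx => ?_, 1, Subgroup.one_mem _, ?_⟩, h1, _, h2⟩
  · rw [Subgroup.mem_bot] at hx
    rw [hx, one_pow]
  · rw [orderOf_one, pow_zero]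

theorem fac_zero (p : ℕ) : Fac p 0 0 0 := by
  have h1 : ∀ x : PUnit.{1}, x = 1 := fun x => rfl
  refine ⟨PUnit.{1}, inferInstance, inferInstance, ⊤, ⊤,
    fun g => ⟨1, trivial, 1, trivial, rfl⟩, ⟨fun x _ => rfl, 1, trivial, ?_⟩,
    ⟨fun x _ => rfl, 1, trivial, ?_⟩, fun _ => rfl, 1, ?_⟩ <;>
  rw [orderOf_one, pow_zero]

theorem fac_mul {p a b c a' b' c' : ℕ} (h1 : Fac p a b c) (h2 : Fac p a' b' c') :
    Fac p (a + a') (b + b') (c + c') := by
  obtain ⟨G, _, _, A, B, f1, ⟨eA, x, hx, ox⟩, ⟨eB, y, hy, oy⟩, eG, g, og⟩ := h1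
  obtain ⟨K, _, _, A', B', f2, ⟨eA', x', hx', ox'⟩, ⟨eB', y', hy', oy'⟩, eK, g', og'⟩ := h2
  have := WP.finite (G := G) (H := K)
  have hG : ∀ w : WP G K, w ^ p ^ (c + c') = 1 := by
    intro w
    have := WP.sub_exp (A := (⊤ : Subgroup G)) (B := (⊤ : Subgroup K)) (m := p ^ c) (n := p ^ c')
      (fun x _ => eG x) (fun x _ => eK x) w ⟨fun _ => trivial, trivial⟩
    rw [pow_add]
    exact this
  have hA : ∀ w ∈ WP.sub A A', w ^ p ^ (a + a') = 1 := by
    rw [pow_add]; exact WP.sub_exp eA eA'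
  have hB : ∀ w ∈ WP.sub B B', w ^ p ^ (b + b') = 1 := by
    rw [pow_add]; exact WP.sub_exp eB eB'
  have key : ∀ (u : G) (v : K) (i j : ℕ), orderOf u = p ^ i → orderOf v = p ^ j →
      WP.el u v ^ p ^ (i + j) = 1 → orderOf (WP.el u v) = p ^ (i + j) := by
    intro u v i j hu hv h
    refine Nat.dvd_antisymm (orderOf_dvd_of_pow_eq_one h) ?_
    have := WP.el_dvd u v _ (pow_orderOf_eq_one (WP.el u v))
    rw [hu, hv, mul_comm, ← pow_add] at this
    exact this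
  exact ⟨WP G K, inferInstance, inferInstance, WP.sub A A', WP.sub B B', WP.fact f1 f2,
    ⟨hA, _, WP.el_mem hx hx', key x x' a a' ox ox' (hA _ (WP.el_mem hx hx'))⟩,
    ⟨hB, _, WP.el_mem hy hy', key y y' b b' oy oy' (hB _ (WP.el_mem hy hy'))⟩,
    hG, _, key g g' c c' og og' (hG _)⟩

theorem fac_pow {p a b c : ℕ} (h : Fac p a b c) (n : ℕ) : Fac p (n * a) (n * b) (n * c) := by
  induction n with
  | zero => rw [zero_mul, zero_mul, zero_mul]; exact fac_zero p
  | succ n ih => rw [add_mul, add_mul, add_mul, one_mul, one_mul, one_mul]; exact fac_mul ih h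

theorem fac_min (p : ℕ) [hp : Fact p.Prime] (h3 : 3 ≤ p) (m n : ℕ) :
    Fac p m n (m + n + min m n) := by
  have main : ∀ m n : ℕ, n ≤ m → Fac p m n (m + n + min m n) := by
    intro m n h
    have h1 := fac_mul (fac_pow (fac_base p h3) n) (fac_pow (fac_cyclic p) (m - n))
    have e1 : n * 1 + (m - n) * 1 = m := by omega
    have e2 : n * 1 + (m - n) * 0 = n := by omega
    have e3 : n * 3 + (m - n) * 1 = m + n + min m n := by
      rw [min_eq_right h]; omega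
    rw [e1, e2, e3] at h1
    exact h1
  rcases le_total n m with h | h
  · exact main m n h
  · have := fac_symm (main n m h)
    rw [add_comm n m, min_comm] at this
    exact this

/-- the exponents -/
theorem Fac.exponents {p a b c : ℕ} (h : Fac p a b c) :
    ∃ (G : Type) (_ : Group G) (_ : Finite G) (A B : Subgroup G), IsPGroup p G ∧
      (∀ g : G, ∃ x ∈ A, ∃ y ∈ B, g = x * y) ∧ Monoid.exponent A = p ^ a ∧
        Monoid.exponent B = p ^ b ∧ Monoid.exponent G = p ^ c := by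
  obtain ⟨G, i1, i2, A, B, f, ⟨eA, x, hx, ox⟩, ⟨eB, y, hy, oy⟩, eG, g, og⟩ := h
  have key : ∀ (S : Subgroup G) (n : ℕ), (∀ a ∈ S, a ^ n = 1) → (∃ a ∈ S, orderOf a = n) →
      Monoid.exponent S = n := by
    rintro S n hS ⟨a, ha, h⟩
    refine Nat.dvd_antisymm (Monoid.exponent_dvd_of_forall_pow_eq_one fun b =>
      Subtype.ext (hS b.1 b.2)) ?_
    have h1 := Monoid.order_dvd_exponent (⟨a, ha⟩ : S)
    rw [← Subgroup.orderOf_coe] at h1
    rw [← h]
    exact h1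
  refine ⟨G, i1, i2, A, B, fun g => ⟨c, eG g⟩, f, key A _ eA ⟨x, hx, ox⟩, key B _ eB ⟨y, hy, oy⟩,
    Nat.dvd_antisymm (Monoid.exponent_dvd_of_forall_pow_eq_one eG) ?_⟩
  rw [← og]
  exact Monoid.order_dvd_exponent g

end Pool.Agent.H992.EX
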